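import Pool.Agent.H70.EI.Targets

set_option autoImplicit false

namespace Pool.Agent.H17.EI

open Finset Pool.Agent.H6.NB Pool.Agent.H70.OQ Pool.Agent.H70.EH Pool.Agent.H70.EI

theorem core {A : Type} [Fintype A] (F G : A → Bool) (err : Bool × A → Prop) [DecidablePred err]
    (hN : 0 < Fintype.card A) (h4 : 4 * (univ.filter fun p => G p ≠ F p).card ≤ Fintype.card A)
    (herr : ∀ b p, err (b, p) ↔ (if b then G p else F p) ≠ b) :
    (1 / 4 : ℝ) ≤ ∑ c : Bool × A, (if err c then 1 / (Fintype.card (Bool × A) : ℝ) else 0) := by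
  classical
  have hN' : (0 : ℝ) < Fintype.card A := by exact_mod_cast hN
  have hc : (Fintype.card (Bool × A) : ℝ) = 2 * Fintype.card A := by
    rw [Fintype.card_prod, Fintype.card_bool]
    push_cast
    ring
  have h5 : ((univ.filter fun p => G p ≠ F p).card : ℝ) ≤ Fintype.card A / 4 := by
    have : ((4 * (univ.filter fun p => G p ≠ F p).card : ℕ) : ℝ) ≤ Fintype.card A := by
      exact_mod_cast h4
    push_cast at this
    linarith
  have h6 : ∀ p, (if G p ≠ F p then (0 : ℝ) else 1 / (2 * Fintype.card A)) ≤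
      (if err (true, p) then 1 / (2 * Fintype.card A : ℝ) else 0) +
      (if err (false, p) then 1 / (2 * Fintype.card A : ℝ) else 0) := by
    intro p
    have h7 : (0 : ℝ) < 1 / (2 * Fintype.card A) := by positivity
    by_cases h : G p ≠ F p
    · rw [if_pos h]
      positivity
    · rw [if_neg h]
      have h8 : G p = F p := not_not.1 h
      cases hF : F p with
      | true =>
        have e : err (false, p) := (herr false p).2 (by simp [hF])
        rw [if_pos e]
        have : (0 : ℝ) ≤ if err (true, p) then 1 / (2 * Fintype.card A : ℝ) else 0 := by positivity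
        linarith
      | false =>
        have e : err (true, p) := (herr true p).2 (by simp [h8, hF])
        rw [if_pos e]
        have : (0 : ℝ) ≤ if err (false, p) then 1 / (2 * Fintype.card A : ℝ) else 0 := by positivity
        linarith
  rw [hc, Fintype.sum_prod_type, Fintype.sum_bool, ← Finset.sum_add_distrib]
  refine le_trans ?_ (Finset.sum_le_sum fun p _ => h6 p)
  have h9 : ∑ p : A, (if G p ≠ F p then (0 : ℝ) else 1 / (2 * Fintype.card A)) =
      (Fintype.card A - (univ.filter fun p => G p ≠ F p).card) * (1 / (2 * Fintype.card A)) := by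
    rw [← Finset.sum_filter_add_sum_filter_not univ (fun p => G p ≠ F p)]
    have e1 : ∑ p ∈ univ.filter (fun p => G p ≠ F p),
        (if G p ≠ F p then (0 : ℝ) else 1 / (2 * Fintype.card A)) = 0 :=
      Finset.sum_eq_zero fun p hp => if_pos (Finset.mem_filter.1 hp).2
    have e2 : ∑ p ∈ univ.filter (fun p => ¬ G p ≠ F p),
        (if G p ≠ F p then (0 : ℝ) else 1 / (2 * Fintype.card A)) =
        ((univ.filter fun p => ¬ G p ≠ F p).card : ℝ) * (1 / (2 * Fintype.card A)) := by
      rw [← nsmul_eq_mul, ← Finset.sum_const]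
      exact Finset.sum_congr rfl fun p hp => if_neg (Finset.mem_filter.1 hp).2
    have e3 : ((univ.filter fun p => G p ≠ F p).card : ℝ) +
        (univ.filter fun p => ¬ G p ≠ F p).card = Fintype.card A := by
      rw [← Nat.cast_add, Finset.card_filter_add_card_filter_not, Finset.card_univ]
    rw [e1, e2, zero_add]
    congr 1
    linarith
  rw [h9]
  have h10 : (Fintype.card A : ℝ) * (3 / 4) ≤
      Fintype.card A - (univ.filter fun p => G p ≠ F p).card := by linarith
  calc (1 / 4 : ℝ) ≤ (Fintype.card A : ℝ) * (3 / 4) * (1 / (2 * Fintype.card A)) := by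
        rw [mul_one_div, le_div_iff₀ (by positivity)]
        linarith
    _ ≤ _ := mul_le_mul_of_nonneg_right h10 (by positivity)

theorem hid_ne (n : ℕ) : ∀ k : ℕ, Nonempty (Hid (Fin n → Bool) (Ys n) k)
  | 0 => ⟨()⟩
  | k + 1 => by
    obtain ⟨H⟩ := hid_ne n k
    exact ⟨(H, fun _ _ => false)⟩

open Classical in
/-- the oracle as a function of the table -/
noncomputable def O2 (n k : ℕ) (O0 : List Bool → Bool) (T : Nn n k → Bool) (w : List Bool) : Bool :=
  if h : ∃ x : Nn n k, w = false :: nstr n k x then T h.choose else O0 w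

theorem lit_O2 (n k : ℕ) (O0 : List Bool → Bool) : Lit (O2 n k O0) := by
  intro w
  by_cases h : ∃ x : Nn n k, w = false :: nstr n k x
  · exact Or.inr ⟨h.choose, fun y => by unfold O2; rw [dif_pos h]⟩
  · exact Or.inl ⟨O0 w, fun y => by unfold O2; rw [dif_neg h]⟩

/-- BST: the machine `W a` errs with probability at least `1 / 4`. -/
theorem bst (h1 : T_FML) (h2 : T_NDV) : T_BST := by
  classical
  intro V W ρ hρ E O hO P a h
  -- the oracle in terms of the table
  have hO2 : ∀ c : Ct V W ρ (.inr a), O (Function.update P ⟨.inr a, h⟩ c) =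
      O2 (2 ^ ρ a) ((W a).1 + 1) (O P) (tb c) := by
    intro c
    funext w
    by_cases hw : ∃ x : Nn (2 ^ ρ a) ((W a).1 + 1), w = false :: nstr (2 ^ ρ a) ((W a).1 + 1) x
    · unfold O2
      rw [dif_pos hw]
      have h3 := hO.tab (Function.update P ⟨.inr a, h⟩ c) a h hw.choose
      rw [← hw.choose_spec] at h3
      rw [h3, Function.update_self]
    · unfold O2
      rw [dif_neg hw]
      rcases hO.tabU P a h w with h3 | h3
      · exact h3 c
      · exact absurd h3 hw
  -- the formula
  obtain ⟨f, hf1, hf2⟩ := h1 (Nn (2 ^ ρ a) ((W a).1 + 1)) ((W a).1 + 1) (W a).2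
    (O2 (2 ^ ρ a) ((W a).1 + 1) (O P)) (List.replicate (2 ^ ρ a) false)
    ((2 ^ ρ a) ^ (W a).2.c + (W a).2.c + 1) (by rw [List.length_replicate]; omega)
    (lit_O2 _ _ _)
  have hok := hρ.ok a f hf1
  have htb : ∀ (c : Ct V W ρ (.inr a)) (p : Nn (2 ^ ρ a) ((W a).1 + 1)),
      O (Function.update P ⟨.inr a, h⟩ c) (false :: nstr (2 ^ ρ a) ((W a).1 + 1) p) =
        tb (n := 2 ^ ρ a) (k := (W a).1 + 1) c p := by
    intro c p
    rw [hO.tab _ a h p, Function.update_self]
  -- special rows
  have hpl : ∀ c : Ct V W ρ (.inr a), (List.replicate (2 ^ ρ a) false ∈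
      plang ((W a).1 + 1) (O (Function.update P ⟨.inr a, h⟩ c)) ↔ c.1 = true) := by
    rintro ⟨b, H, x⟩
    have h3 : ∀ p : Nn (2 ^ ρ a) ((W a).1 + 1),
        O (Function.update P ⟨.inr a, h⟩ (b, H, x)) (false :: nstr (2 ^ ρ a) ((W a).1 + 1) p) =
        sv (fun x' => if b then !decide (x' = x) else true) ((W a).1 + 1) H p := by
      intro p
      refine (htb (b, H, x) p).trans ?_
      cases b <;> rfl
    have h4 := h2 ((W a).1 + 1) (2 ^ ρ a) _ _ H h3
    constructor
    · rintro ⟨u, hu, hs⟩
      rw [List.length_replicate] at hu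
      obtain ⟨x', rfl⟩ : ∃ x' : Fin (2 ^ ρ a) → Bool, List.ofFn x' = u := by
        have : ∀ (m : ℕ) (u : List Bool), u.length = m → ∃ x' : Fin m → Bool,
            List.ofFn x' = u := by
          rintro m u rfl
          exact ⟨u.get, List.ofFn_get u⟩
        exact this _ u hu
      have h5 := (h4 x').1 hs
      cases b with
      | true => rfl
      | false => simp at h5
    · intro hb
      have hb' : b = true := hb
      subst hb'
      refine ⟨List.ofFn x, by rw [List.length_ofFn, List.length_replicate], ?_⟩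
      rw [h4]
      simp
  -- the count
  have hNe : 0 < Fintype.card (Hid (Fin (2 ^ ρ a) → Bool) (Ys (2 ^ ρ a)) ((W a).1 + 1) ×
      (Fin (2 ^ ρ a) → Bool)) := by
    obtain ⟨H⟩ := hid_ne (2 ^ ρ a) ((W a).1 + 1)
    exact Fintype.card_pos_iff.2 ⟨(H, fun _ => false)⟩
  have key := core (A := Hid (Fin (2 ^ ρ a) → Bool) (Ys (2 ^ ρ a)) ((W a).1 + 1) ×
      (Fin (2 ^ ρ a) → Bool)) (fun p => f (tabT ((W a).1 + 1) p.1))
    (fun p => f (tabU ((W a).1 + 1) p.1 p.2))
    (fun c => ansr V W ρ (O (Function.update P ⟨.inr a, h⟩ c)) (.inr a)) hNe hok fun b p => by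
      show ¬ (_ ↔ _) ↔ _
      rw [hpl (b, p), hO2 (b, p), ← hf2]
      have e1 : f (tb (n := 2 ^ ρ a) (k := (W a).1 + 1) (b, p)) =
          (if b then f (tabU ((W a).1 + 1) p.1 p.2) else f (tabT ((W a).1 + 1) p.1)) := by
        cases b <;> rfl
      rw [e1]
      show ¬ (_ ↔ b = true) ↔ _
      rw [not_iff_not]
      exact Bool.eq_iff_iff.symm
  exact key

end Pool.Agent.H17.EI
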