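import Pool.Agent.H70.EI.Targets

set_option autoImplicit false

namespace Pool.Agent.H17.EI

open Finset Pool.Agent.H6.NB Pool.Agent.H70.OQ Pool.Agent.H70.EH Pool.Agent.H70.EI

theorem enc_inj : ∀ (n n' : ℕ) (x x' : List Bool),
    List.replicate n true ++ false :: x = List.replicate n' true ++ false :: x' →
    n = n' ∧ x = x' := by
  intro n
  induction n with
  | zero =>
    intro n' x x' h
    cases n' with
    | zero => simpa using h
    | succ n' => simp [List.replicate_succ] at h
  | succ n ih =>
    intro n' x x' h
    cases n' with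
    | zero => simp [List.replicate_succ] at h
    | succ n' =>
      simp only [List.replicate_succ, List.cons_append, List.cons.injEq, true_and] at h
      obtain ⟨h1, h2⟩ := ih n' x x' h
      exact ⟨by omega, h2⟩

/-- the code of an index -/
def enc : Ix → List Bool ⊕ ℕ
  | .inl p => .inl (List.replicate p.1 true ++ false :: p.2)
  | .inr a => .inr a

theorem enc_injective : Function.Injective enc := by
  intro i j h
  cases i with
  | inl p =>
    cases j with
    | inl p' =>
      obtain ⟨h1, h2⟩ := enc_inj _ _ _ _ (Sum.inl_injective h)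
      rw [Prod.ext h1 h2]
    | inr a => exact absurd h (by simp [enc])
  | inr a =>
    cases j with
    | inl p => exact absurd h (by simp [enc])
    | inr b =>
      have := Sum.inr_injective h
      rw [this]

theorem pow_est2 (r : ℕ) (hr : 20 ≤ r) : 3 * (2 ^ (r - 18) + (r + 1)) ≤ 2 ^ r := by
  obtain ⟨k, rfl⟩ := Nat.exists_eq_add_of_le hr
  have e : 20 + k - 18 = k + 2 := by omega
  rw [e]
  have h1 : k < 2 ^ k := Nat.lt_two_pow_self
  have h2 : 2 ^ (k + 2) = 4 * 2 ^ k := by rw [pow_add]; ring
  have h3 : 2 ^ (20 + k) = 1048576 * 2 ^ k := by rw [pow_add]; norm_num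
  rw [h2, h3]
  omega

/-- CNT: the number of indices of bounded size. -/
theorem cnt (h1 : T_FIS) : T_CNT := by
  classical
  intro V W ρ hρ E r hr
  obtain ⟨Ws, hW1, hW2⟩ := h1.1 (r - 19)
  have hcard : (E.filter fun i => key V ρ i ≤ r).card ≤
      (Ws.toFinset.disjSum (range (r + 1))).card := by
    refine Finset.card_le_card_of_injOn enc ?_ enc_injective.injOn
    intro i hi
    have hi' : key V ρ i ≤ r := (Finset.mem_filter.1 (Finset.mem_coe.1 hi)).2
    rw [Finset.mem_coe]
    cases i with
    | inl p =>
      refine Finset.inl_mem_disjSum.2 (List.mem_toFinset.2 (hW2 _ ?_))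
      rw [List.length_append, List.length_replicate, List.length_cons]
      have h3 : p.2.length + p.1 + 20 ≤ r := by
        refine le_trans ?_ hi'
        show _ ≤ scale (V p.1) p.1 p.2
        unfold scale
        omega
      omega
    | inr a =>
      refine Finset.inr_mem_disjSum.2 (Finset.mem_range.2 ?_)
      have h3 : ρ a ≤ r := hi'
      have h4 := hρ.mono.le_apply (x := a)
      omega
  rw [Finset.card_disjSum, Finset.card_range] at hcard
  have h3 := List.toFinset_card_le Ws
  have h4 : r - 19 + 1 = r - 18 := by omega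
  rw [h4] at hW1
  have h5 := pow_est2 r hr
  calc 3 * (E.filter fun i => key V ρ i ≤ r).card ≤ 3 * (2 ^ (r - 18) + (r + 1)) := by omega
    _ ≤ 2 ^ r := h5

end Pool.Agent.H17.EI
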