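import Pool.Agent.H70.EI.Targets

set_option autoImplicit false

namespace Pool.Agent.H17.EI

open Finset Pool.Agent.H6.NB Pool.Agent.H70.OQ Pool.Agent.H70.EH Pool.Agent.H70.EI

/-- a string of length `l` as a function -/
theorem ofFn_exists (l : ℕ) (v : List Bool) (hv : v.length = l) :
    ∃ i : Fin l → Bool, List.ofFn i = v := by
  subst hv
  exact ⟨v.get, List.ofFn_get v⟩

open Classical in
theorem gate_cl (h1 : T_CLB) (X : Type) (S : ℕ) (hS : 2 ≤ S) (d l : ℕ) (hl : 2 ^ l ≤ S)
    (Q : (X → Bool) → List Bool → Prop)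
    (hQ : ∀ v : List Bool, v.length = l → Cl X S d fun y => decide (Q y v)) :
    Cl X S (d + 1) fun y => decide (∃ v : List Bool, v.length = l ∧ ¬ Q y v) := by
  refine (h1 X S hS).2.2.1 d (Fin l → Bool) (fun i y => decide (Q y (List.ofFn i)))
    (fun _ => false) _ ?_ (fun i => hQ _ (List.length_ofFn)) fun y => ?_
  · rw [Fintype.card_fun, Fintype.card_bool, Fintype.card_fin]
    exact hl
  · rw [decide_eq_true_iff]
    constructor
    · rintro ⟨v, hv, hn⟩
      obtain ⟨i, rfl⟩ := ofFn_exists l v hv
      exact ⟨i, decide_eq_false hn⟩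
    · rintro ⟨i, hi⟩
      exact ⟨List.ofFn i, List.length_ofFn, of_decide_eq_false hi⟩

open Classical in
theorem nd_cl (h1 : T_CLB) (X : Type) (S : ℕ) (O : (X → Bool) → List Bool → Bool) (hS : 2 ≤ S)
    (hO : Lit O) : ∀ (j l : ℕ) (w : List Bool), (∀ i < j, 2 ^ (2 ^ i * l) ≤ S) →
    Cl X S j fun y => decide (Nd (O y) j l w) := by
  intro j
  induction j with
  | zero =>
    intro l w _
    rcases hO w with ⟨b, hb⟩ | ⟨v, hv⟩
    · refine Or.inl ⟨b, fun y => ?_⟩
      simp only [Nd, hb]
      cases b <;> simp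
    · refine Or.inr ⟨v, fun y => ?_⟩
      simp only [Nd, hv]
      cases y v <;> simp
  | succ j ih =>
    intro l w hl
    refine gate_cl h1 X S hS j l ?_ (fun y v => Nd (O y) j (2 * l) (w ++ v)) fun v _ => ?_
    · simpa using hl 0 (by omega)
    · refine ih (2 * l) (w ++ v) fun i hi => ?_
      have := hl (i + 1) (by omega)
      rwa [pow_succ, mul_assoc] at this

/-- PCL: the language `plang`, as a function of the variables of the oracle. -/
theorem pcl (h1 : T_CLB) : T_PCL := by
  classical
  intro X S k x O hS hk hO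
  have hle : ∀ i ≤ k, 2 ^ (2 ^ i * x.length) ≤ S := by
    intro i hi
    refine le_trans (Nat.pow_le_pow_right (by norm_num) ?_) hk
    have := Nat.mul_le_mul_right x.length (Nat.pow_le_pow_right (n := 2) (by norm_num) hi)
    omega
  have h2 := gate_cl h1 X S hS k x.length (by simpa using hle 0 (by omega))
    (fun y u => Nd (O y) k (2 * u.length) (false :: u)) fun v hv => by
      refine nd_cl h1 X S O hS hO k _ _ fun i hi => ?_
      rw [hv]
      have := hle (i + 1) (by omega)
      rwa [pow_succ, mul_assoc] at this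
  exact (h1 X S hS).2.1 (k + 1) (k + 3) _ (by omega) h2

end Pool.Agent.H17.EI
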